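import Pool.Agent.EGF.Stmts

/-! Row RED of squad EGF: reduction to all sizes. -/

set_option autoImplicit false

open Finset

namespace Pool.Agent.EGF.H92

variable {V : Type} [DecidableEq V] {k : ℕ}

lemma palInsert (c : V → V → Fin k) (hs : ∀ x y, c x y = c y x) (W S : Finset V) (a : Fin k)
    (v : V) (hS : S ⊆ nb c W a v) : pal c (insert v S) ⊆ insert a (pal c S) := by
  intro b hb
  unfold pal at hb
  rw [mem_image] at hb
  obtain ⟨⟨x, y⟩, hxy, rfl⟩ := hb
  rw [mem_filter, mem_product] at hxy
  obtain ⟨⟨hx, hy⟩, hne⟩ := hxy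
  simp only at hx hy hne ⊢
  have hnb : ∀ z ∈ S, c v z = a := by
    intro z hz
    have := hS hz
    unfold nb at this
    exact (mem_filter.1 this).2.2
  rw [mem_insert] at hx hy
  rw [mem_insert]
  rcases hx with hx | hx
  · rcases hy with hy | hy
    · exact absurd (hx.trans hy.symm) hne
    · left
      rw [hx]
      exact hnb y hy
  · rcases hy with hy | hy
    · left
      rw [hy, hs]
      exact hnb x hx
    · right
      unfold pal
      rw [mem_image]
      exact ⟨(x, y), mem_filter.2 ⟨mem_product.2 ⟨hx, hy⟩, hne⟩, rfl⟩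

lemma stepG (c : V → V → Fin k) (hs : ∀ x y, c x y = c y x) (W : Finset V) (a : Fin k)
    (v : V) (hv : v ∈ W) (q : ℕ) (hG : ∀ S ⊆ W, S.card = q + 1 → q + 1 - 1 ≤ (pal c S).card) :
    ∀ S ⊆ nb c W a v, S.card = q → q - 1 ≤ (pal c S).card := by
  intro S hS hSq
  have hvS : v ∉ S := by
    intro h
    have := hS h
    unfold nb at this
    exact (mem_filter.1 this).2.1 rfl
  have hsub : insert v S ⊆ W := by
    intro z hz
    rw [mem_insert] at hz
    rcases hz with hz | hz
    · rw [hz]; exact hv
    · have := hS hz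
      unfold nb at this
      exact (mem_filter.1 this).1
  have h1 := hG (insert v S) hsub (by rw [card_insert_of_notMem hvS, hSq])
  have h2 := card_le_card (palInsert c hs W S a v hS)
  have h3 := card_insert_le a (pal c S)
  omega

lemma pig (c : V → V → Fin k) (W : Finset V) (v : V) (hv : v ∈ W) (hk : 0 < k) :
    ∃ a, W.card - 1 ≤ k * (nb c W a v).card := by
  classical
  by_contra hne
  push Not at hne
  have h1 : (W.erase v).card = ∑ a : Fin k, ((W.erase v).filter (fun y => c v y = a)).card :=
    card_eq_sum_card_fiberwise (fun y _ => mem_univ (c v y))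
  have h2 : ∀ a : Fin k, (W.erase v).filter (fun y => c v y = a) = nb c W a v := by
    intro a
    ext y
    unfold nb
    rw [mem_filter, mem_filter, mem_erase]
    tauto
  simp only [h2] at h1
  have h3 : ∑ a : Fin k, k * (nb c W a v).card < ∑ _a : Fin k, (W.card - 1) := by
    have : Nonempty (Fin k) := ⟨⟨0, hk⟩⟩
    exact sum_lt_sum_of_nonempty univ_nonempty (fun a _ => hne a)
  rw [← mul_sum, ← h1, sum_const, card_univ, Fintype.card_fin, smul_eq_mul,
    card_erase_of_mem hv] at h3
  exact lt_irrefl _ h3

theorem red : RedStmt := by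
  intro V _ _ k c p hs hp hG hV
  rcases Nat.eq_zero_or_pos k with hk | hk
  · subst hk
    have hemp : IsEmpty V := ⟨fun v => (c v v).elim0⟩
    refine ⟨∅, ?_, ?_⟩
    · rw [Fintype.card_eq_zero]
      exact Nat.zero_le _
    · intro q hq _ S hS hSq
      rw [subset_empty.1 hS, card_empty] at hSq
      omega
  have key : ∀ i, i ≤ p - 4 → ∃ U : Finset V, Fintype.card V ≤ (2 * k) ^ i * U.card ∧
      ∀ q, p - i ≤ q → q ≤ p → ∀ S ⊆ U, S.card = q → q - 1 ≤ (pal c S).card := by
    intro i
    induction i with
    | zero =>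
      intro _
      refine ⟨univ, ?_, ?_⟩
      · rw [pow_zero, one_mul, card_univ]
      · intro q hq1 hq2 S _ hS
        have : q = p := by omega
        subst this
        exact hG S hS
    | succ i ih =>
      intro hi
      obtain ⟨U, hU1, hU2⟩ := ih (by omega)
      have hkp : 0 < (2 * k) ^ i := by positivity
      have h2 : 2 ≤ U.card := by
        have h3 : (2 * k) ^ i ≤ (2 * k) ^ p := Nat.pow_le_pow_right (by omega) (by omega)
        have h4 : (2 * k) ^ i * 2 ≤ (2 * k) ^ i * U.card := by
          calc (2 * k) ^ i * 2 ≤ (2 * k) ^ p * 2 := Nat.mul_le_mul_right _ h3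
            _ = 2 * (2 * k) ^ p := mul_comm _ _
            _ ≤ _ := hV.trans hU1
        exact Nat.le_of_mul_le_mul_left h4 hkp
      obtain ⟨v, hv⟩ : U.Nonempty := card_pos.1 (by omega)
      obtain ⟨a, ha⟩ := pig c U v hv hk
      refine ⟨nb c U a v, ?_, ?_⟩
      · have h3 : U.card ≤ 2 * k * (nb c U a v).card := by
          have : 2 * k * (nb c U a v).card = 2 * (k * (nb c U a v).card) := by ring
          omega
        calc Fintype.card V ≤ (2 * k) ^ i * U.card := hU1
          _ ≤ (2 * k) ^ i * (2 * k * (nb c U a v).card) := Nat.mul_le_mul_left _ h3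
          _ = (2 * k) ^ (i + 1) * (nb c U a v).card := by ring
      · intro q hq1 hq2
        by_cases hqp : q = p
        · intro S hS hSq
          refine hU2 q (by omega) hq2 S (hS.trans ?_) hSq
          unfold nb
          exact filter_subset _ _
        · exact stepG c hs U a v hv q (hU2 (q + 1) (by omega) (by omega))
  obtain ⟨U, hU1, hU2⟩ := key (p - 4) le_rfl
  refine ⟨U, ?_, ?_⟩
  · refine hU1.trans (Nat.mul_le_mul_right _ (Nat.pow_le_pow_right (by omega) (by omega)))
  · intro q hq1 hq2
    exact hU2 q (by omega) hq2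

end Pool.Agent.EGF.H92
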