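import Pool.Agent.EGF.StmtsS

/-!
Squad EGF, row GRD: a point of the grid.
-/

set_option autoImplicit false

namespace Pool.Agent.EGF.H92

open Pool.Agent.EGF

theorem grd : GrdStmt := by
  intro N N0 D hD h0 h1 h2
  have hDr : (1 : ℝ) ≤ D := by exact_mod_cast hD
  have hD0 : (0 : ℝ) < D := by linarith
  have hN : 0 < N := by linarith
  have hu0 : 0 ≤ (8 * (D : ℝ) - 2) * N / N0 := by
    apply div_nonneg (mul_nonneg (by linarith) hN.le) h0.le
  have hi1 := Nat.floor_le hu0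
  have hi2 := Nat.lt_floor_add_one ((8 * (D : ℝ) - 2) * N / N0)
  obtain ⟨i, hi⟩ : ∃ i : ℕ, i = ⌊(8 * (D : ℝ) - 2) * N / N0⌋₊ := ⟨_, rfl⟩
  rw [← hi] at hi1 hi2
  rw [le_div_iff₀ h0] at hi1
  rw [div_lt_iff₀ h0] at hi2
  refine ⟨i, ?_, ?_, ?_⟩
  · have h3 : (i : ℝ) * N0 ≤ (8 * (D : ℝ)) * N0 := by nlinarith
    have h4 : (i : ℝ) ≤ 8 * (D : ℝ) := le_of_mul_le_mul_right h3 h0
    exact_mod_cast h4
  · rw [le_div_iff₀ (by positivity)]
    have e : (1 - 1 / (2 * (D : ℝ))) * N * (8 * D) = (8 * (D : ℝ) - 4) * N := by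
      field_simp; ring
    rw [e]
    nlinarith
  · rw [div_le_iff₀ (by positivity)]
    have e : (1 - 1 / (4 * (D : ℝ))) * N * (8 * D) = (8 * (D : ℝ) - 2) * N := by
      field_simp; ring
    rw [e]
    linarith

end Pool.Agent.EGF.H92
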